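import Mathlib
import Pool.Agent.Work.MP_e9b29d_win.All

/-!
Large values of the logarithmic derivative of the Riemann zeta function in every window
`[T, T + H]`, however short compared with `T`, in every direction.
-/

namespace Pool.Agent.Results.MP_e9b29d_nt.EveryWindow

theorem result : ∃ c : ℝ, 0 < c ∧ ∀ b : ℝ, 0 < b → b < 1 → ∃ H₀ : ℝ, 0 < H₀ ∧
    ∀ σ T H φ : ℝ, 0 < σ → σ ≤ b → 1 ≤ T → H₀ ≤ H →
      ∃ s : ℂ, σ ≤ s.re ∧ s.re ≤ 2 ∧ T ≤ s.im ∧ s.im ≤ T + H ∧
        (riemannZeta s = 0 ∨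
          Real.exp (H / 20) < ‖deriv riemannZeta s / riemannZeta s‖ ∨
          (s.re = σ ∧ c * Real.log H ^ (1 - σ) ≤
            (Complex.exp (φ * Complex.I) * (deriv riemannZeta s / riemannZeta s)).re)) :=
  Pool.Agent.Work.MP_e9b29d_win.final

end Pool.Agent.Results.MP_e9b29d_nt.EveryWindow
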