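import Mathlib
import Pool.Agent.Work.MP_e9b29d_ld.All

/-!
Large deviations of the logarithmic derivative of the Riemann zeta function in the strip
`1/2 < σ < 1`, over unit boxes in short intervals, in every direction: matching upper and lower
bounds for the frequency, the lower one simultaneous in `σ`.
-/

namespace Pool.Agent.Results.MP_e9b29d_nt.LargeDeviations

theorem result {a b θ : ℝ} (ha : 1 / 2 < a) (hab : a < b) (hb : b < 1)
    (hθ : 2 - 2 * a < θ) (hθ1 : θ ≤ 1) :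
    ∃ C c y₀ T₀ : ℝ, 0 < C ∧ 0 < c ∧ ∀ T H : ℕ, T₀ ≤ T → (T : ℝ) ^ θ ≤ H → H ≤ T →
      ∀ y : ℝ, y₀ ≤ y → y ≤ c * Real.log T →
      ((({n : ℕ | T ≤ n ∧ n < T + H ∧ ¬ ∀ t ∈ Set.Icc (n : ℝ) (n + 1),
          (∀ σ : ℝ, a ≤ σ → riemannZeta (σ + t * Complex.I) ≠ 0) ∧
          ∀ σ ∈ Set.Icc a b,
            ‖deriv riemannZeta (σ + t * Complex.I) / riemannZeta (σ + t * Complex.I)‖ ≤
              C * y ^ (1 - σ)}.ncard : ℕ) : ℝ) ≤ H * Real.exp (-(c * y / Real.log y))) ∧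
      ∀ φ : ℝ, H * Real.exp (-(C * y / Real.log y)) ≤
        (({n : ℕ | T ≤ n ∧ n < T + H ∧ ∃ t ∈ Set.Icc (n : ℝ) (n + 1), ∀ σ ∈ Set.Icc a b,
          riemannZeta (σ + t * Complex.I) ≠ 0 ∧ c * y ^ (1 - σ) ≤
            (Complex.exp (φ * Complex.I) * (deriv riemannZeta (σ + t * Complex.I) /
              riemannZeta (σ + t * Complex.I))).re}.ncard : ℕ) : ℝ) :=
  Pool.LDV.final a b θ ha hab hb hθ hθ1

end Pool.Agent.Results.MP_e9b29d_nt.LargeDeviations
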