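import Mathlib
import Pool.Agent.Work.MP_e9b29d_nt.Main

/-!
Large values of the logarithmic derivative of the Riemann zeta function in the strip
`1/2 < σ < 1`: the set of unit boxes where the conjectured bound fails, in short intervals,
uniformly in `σ`.
-/

namespace Pool.Agent.Results.MP_e9b29d_nt.LargeValues

theorem result {σ₀ σ₁ θ : ℝ} (h0 : 1 / 2 < σ₀) (h01 : σ₀ < σ₁) (h1 : σ₁ < 1)
    (hθ : 2 - 2 * σ₀ < θ) (hθ1 : θ ≤ 1) :
    ∃ C c δ T₀ : ℝ, 0 < C ∧ 0 < c ∧ 0 < δ ∧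
      ∀ T H : ℕ, T₀ ≤ T → (T : ℝ) ^ θ ≤ H → H ≤ T → ∀ y : ℝ, C * Real.log T ≤ y →
        (({n : ℕ | T ≤ n ∧ n < T + H ∧ ¬ ∀ t ∈ Set.Icc (n : ℝ) (n + 1),
            (∀ σ : ℝ, σ₀ ≤ σ → riemannZeta (σ + t * Complex.I) ≠ 0) ∧
            ∀ σ ∈ Set.Icc σ₀ σ₁,
              ‖deriv riemannZeta (σ + t * Complex.I) / riemannZeta (σ + t * Complex.I)‖ ≤
                C * y ^ (1 - σ)}.ncard : ℕ) : ℝ) ≤
          H * ((T : ℝ) ^ (-δ) + (Real.log T / y) ^ (c * Real.log T / Real.log y)) := by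
  classical
  obtain ⟨C, c, δ, T₀, hC, hc, hδ, hmain⟩ :=
    Pool.Agent.Work.MP_e9b29d_nt.main h0 h01 h1 hθ hθ1
  refine ⟨C, c, δ, T₀, hC, hc, hδ, ?_⟩
  intro T H hT hH hHT y hy
  have h := hmain T H hT hH hHT y hy
  have hset : {n : ℕ | T ≤ n ∧ n < T + H ∧ ¬ ∀ t ∈ Set.Icc (n : ℝ) (n + 1),
            (∀ σ : ℝ, σ₀ ≤ σ → riemannZeta (σ + t * Complex.I) ≠ 0) ∧
            ∀ σ ∈ Set.Icc σ₀ σ₁,
              ‖deriv riemannZeta (σ + t * Complex.I) / riemannZeta (σ + t * Complex.I)‖ ≤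
                C * y ^ (1 - σ)} =
      (((Finset.Ico T (T + H)).filter (fun n : ℕ => ¬ (∀ t ∈ Set.Icc (n : ℝ) (n + 1),
          (∀ σ : ℝ, σ₀ ≤ σ → riemannZeta (σ + t * Complex.I) ≠ 0) ∧
          ∀ σ ∈ Set.Icc σ₀ σ₁,
            ‖deriv riemannZeta (σ + t * Complex.I) / riemannZeta (σ + t * Complex.I)‖ ≤
            C * y ^ (1 - σ))) : Finset ℕ) : Set ℕ) := by
    ext n
    simp only [Set.mem_ofPred_eq, Finset.coe_filter, Finset.mem_Ico]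
    tauto
  rw [hset, Set.ncard_coe_finset]
  exact h

end Pool.Agent.Results.MP_e9b29d_nt.LargeValues
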